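import Pool.Agent.Helper42.SG.GoalsT

/-!
# Project SG (MP_a41896_nt), packet SGM-NZF: nonvanishing of the auxiliary function for all signs
-/

set_option autoImplicit false

namespace Pool.Agent.Helper12.SGM

open WeierstrassCurve
open Pool.Agent.Helper29.BL Pool.Agent.Helper92.Ru Pool.Agent.Helper42.SG

/-- every `x` is the `x`-coordinate of a point (copied from `Helper29/BL/PEX.lean`) -/
theorem nzf_pex (Ω : Type) [Field Ω] [IsAlgClosed Ω] (W : Affine Ω) [W.IsElliptic] (a : Ω) :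
    ∃ P : W.Point, P ≠ 0 ∧ xc P = a := by
  obtain ⟨y, hy⟩ := IsAlgClosed.exists_root
    (Polynomial.X ^ 2 + Polynomial.C (W.a₁ * a + W.a₃) * Polynomial.X -
      Polynomial.C (a ^ 3 + W.a₂ * a ^ 2 + W.a₄ * a + W.a₆) : Polynomial Ω) (by
      have : (Polynomial.X ^ 2 + Polynomial.C (W.a₁ * a + W.a₃) * Polynomial.X -
        Polynomial.C (a ^ 3 + W.a₂ * a ^ 2 + W.a₄ * a + W.a₆) : Polynomial Ω).degree = 2 := by
        compute_degree!
      rw [this]; decide)
  have heq : W.Equation a y := by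
    rw [Affine.equation_iff]
    simp only [Polynomial.IsRoot.def, Polynomial.eval_sub, Polynomial.eval_add,
      Polynomial.eval_pow, Polynomial.eval_X, Polynomial.eval_mul, Polynomial.eval_C] at hy
    linear_combination hy
  exact ⟨Affine.Point.some a y ((W.equation_iff_nonsingular).mp heq),
    Affine.Point.some_ne_zero _, rfl⟩

/-- `ψ(P)^2 = B(x(P))` for `P ≠ 0` -/
theorem nzf_ps {F : Type} [Field F] (W : Affine F) (P : W.Point) (hP : P ≠ 0) :
    ps P ^ 2 = Bf W (xc P) := by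
  cases P with
  | zero => exact absurd rfl hP
  | some x y h =>
    have h1 := h.1
    rw [Affine.equation_iff] at h1
    simp only [ps, xc, Bf, WeierstrassCurve.b₂, WeierstrassCurve.b₄, WeierstrassCurve.b₆]
    linear_combination 4 * h1

/-- the successive choice of the points -/
theorem nzf_choice (Ω : Type) [Field Ω] (N : ℕ) :
    ∀ (I : Fin N → Type) [∀ h, Fintype (I h)] (Pt : Fin N → Type)
      (w : ∀ h, Pt h → ℤˣ → I h → Ω),
      (∀ (h : Fin N) (ι : Type) [Finite ι] (a : ι → I h → Ω), (∀ k, a k ≠ 0) →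
        ∃ p : Pt h, ∀ (k : ι) (s : ℤˣ), ∑ α : I h, a k α * w h p s α ≠ 0) →
      ∀ (ι : Type) [Finite ι] (a : ι → (∀ h, I h) → Ω), (∀ k, a k ≠ 0) →
        ∃ p : ∀ h, Pt h, ∀ (k : ι) (s : Fin N → ℤˣ),
          ∑ α : (∀ h, I h), a k α * ∏ h, w h (p h) (s h) (α h) ≠ 0 := by
  induction N with
  | zero =>
    intro I _ Pt w hw ι _ a ha
    refine ⟨fun h => h.elim0, fun k s => ?_⟩
    obtain ⟨α, hα⟩ := Function.ne_iff.mp (ha k)
    have h1 : (∑ α : (∀ h, I h), a k α * ∏ h : Fin 0, w h (h.elim0) (s h) (α h)) = a k α := by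
      rw [Fintype.sum_eq_single α]
      · simp
      · intro β hβ
        exact absurd (Subsingleton.elim β α) hβ
    rw [h1]
    exact hα
  | succ N ih =>
    intro I _ Pt w hw ι _ a ha
    have h1 : ∀ k, ∃ α : (∀ h, I h), a k α ≠ 0 := fun k => Function.ne_iff.mp (ha k)
    choose α hα using h1
    obtain ⟨p0, hp0⟩ := hw 0 ι (fun k x => a k (Fin.cons x (fun h => α k h.succ))) (by
      intro k
      refine Function.ne_iff.mpr ⟨α k 0, ?_⟩
      have h2 : (Fin.cons (α k 0) (fun h => α k h.succ) : ∀ h, I h) = α k := Fin.cons_self_tail _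
      simp only [h2]
      exact hα k)
    obtain ⟨p, hp⟩ := ih (fun h => I h.succ) (fun h => Pt h.succ) (fun h => w h.succ)
      (fun h ι _ a ha => hw h.succ ι a ha) (ι × ℤˣ)
      (fun k β => ∑ x : I 0, a k.1 (Fin.cons x β) * w 0 p0 k.2 x) (by
        intro k
        refine Function.ne_iff.mpr ⟨fun h => α k.1 h.succ, ?_⟩
        exact hp0 k.1 k.2)
    refine ⟨Fin.cons p0 p, fun k s => ?_⟩
    have h3 := hp (k, s 0) (fun h => s h.succ)
    refine fun h4 => h3 ?_
    rw [← h4, ← (Fin.consEquiv I).sum_comp, Fintype.sum_prod_type_right]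
    refine Finset.sum_congr rfl fun β _ => ?_
    rw [Finset.sum_mul]
    refine Finset.sum_congr rfl fun x _ => ?_
    rw [Fin.prod_univ_succ]
    simp only [Fin.consEquiv, Equiv.coe_fn_mk, Fin.cons_zero, Fin.cons_succ]
    ring

/-- `ψ(-P) = -ψ(P)`, `x(-P) = x(P)` -/
theorem nzf_neg {F : Type} [Field F] (W : Affine F) (P : W.Point) :
    ps (-P) = - ps P ∧ xc (-P) = xc P := by
  cases P with
  | zero =>
    refine ⟨?_, rfl⟩
    show (0 : F) = -0
    ring
  | some x y h =>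
    rw [Affine.Point.neg_some]
    refine ⟨?_, rfl⟩
    simp only [ps, Affine.negY]
    ring

theorem t_NZF (hN : NZV) : NZF := by
  classical
  intro K _ _ W hW n M δ e c Ω _ _ _ X0 Ψ0 hX0 hc
  haveI : CharZero Ω := charZero_of_injective_algebraMap (algebraMap K Ω).injective
  haveI : ∀ i, (mapW Ω W i).IsElliptic := fun i => by
    haveI := hW i
    unfold mapW
    infer_instance
  obtain ⟨α0, hu⟩ := hc
  have hQ : ∀ i : ℕ, ∃ Q : Affine.Point (mapW Ω W i), Q ≠ 0 ∧
      (i < 2 → xc Q = X0 i ∧ ps Q = Ψ0 i) := by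
    intro i
    obtain ⟨P, hP, hx⟩ := nzf_pex Ω (mapW Ω W i) (X0 i)
    by_cases hi : i < 2
    · have h1 := nzf_ps _ P hP
      rw [hx, ← hX0 i hi] at h1
      rcases sq_eq_sq_iff_eq_or_eq_neg.mp h1 with h2 | h2
      · exact ⟨P, hP, fun _ => ⟨hx, h2⟩⟩
      · refine ⟨-P, neg_ne_zero.mpr hP, fun _ => ⟨?_, ?_⟩⟩
        · rw [(nzf_neg _ P).2, hx]
        · rw [(nzf_neg _ P).1, h2, neg_neg]
    · exact ⟨P, hP, fun h => absurd h hi⟩
  choose Q hQ0 hQx using hQ
  -- the successive choice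
  obtain ⟨P, hP⟩ := nzf_choice Ω (2 * n)
    (fun h => Fin (4 ^ e (h.val / 2)) × Fin (M + 1))
    (fun h => {P : Affine.Point (mapW Ω W (h.val % 2)) // P ≠ 0})
    (fun h P s α => xc P.1 ^ α.1.val *
        ((law (mapW Ω W (h.val % 2)) (e (h.val / 2)) false (xc P.1) (xc (Q (h.val % 2)))
          (((s : ℤ) : Ω) * ps P.1 * ps (Q (h.val % 2)))).1 ^ (M - α.2.val) *
          (law (mapW Ω W (h.val % 2)) (e (h.val / 2)) false (xc P.1) (xc (Q (h.val % 2)))
          (((s : ℤ) : Ω) * ps P.1 * ps (Q (h.val % 2)))).2 ^ α.2.val))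
    (by
      intro h ι _ a ha
      obtain ⟨P, hP0, hP⟩ := hN Ω (mapW Ω W (h.val % 2)) (Q (h.val % 2)) (e (h.val / 2)) M ι a
        (hQ0 _) ha
      exact ⟨⟨P, hP0⟩, hP⟩)
    Unit (fun _ α => ∑ β : Fin 2 → Fin δ, algebraMap K Ω (c (α, β)) *
      ∏ i : Fin 2, X0 i.val ^ (β i).val)
    (by
      intro _
      exact Function.ne_iff.mpr ⟨α0, hu⟩)
  let xP : ℕ → Ω := fun h => if hh : h < 2 * n then xc (P ⟨h, hh⟩).1 else xc (Q (h % 2))
  let pP : ℕ → Ω := fun h => if hh : h < 2 * n then ps (P ⟨h, hh⟩).1 else ps (Q (h % 2))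
  have hxP : ∀ h : Fin (2 * n), xP h.val = xc (P h).1 := fun h => by
    simp only [xP, h.2, dif_pos]
  have hpP : ∀ h : Fin (2 * n), pP h.val = ps (P h).1 := fun h => by
    simp only [pP, h.2, dif_pos]
  have hxQ : ∀ i, xP (2 * n + i) = xc (Q (i % 2)) := fun i => by
    have h1 : ¬ (2 * n + i < 2 * n) := by omega
    have h2 : (2 * n + i) % 2 = i % 2 := by omega
    simp only [xP, dif_neg h1]
    rw [h2]
  have hpQ : ∀ i, pP (2 * n + i) = ps (Q (i % 2)) := fun i => by
    have h1 : ¬ (2 * n + i < 2 * n) := by omega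
    have h2 : (2 * n + i) % 2 = i % 2 := by omega
    simp only [pP, dif_neg h1]
    rw [h2]
  refine ⟨xP, pP, ?_, ?_, ?_⟩
  · intro h hh
    by_cases h1 : h < 2 * n
    · have h2 := hxP ⟨h, h1⟩
      have h3 := hpP ⟨h, h1⟩
      simp only at h2 h3
      rw [h2, h3]
      exact nzf_ps _ _ (P ⟨h, h1⟩).2
    · obtain ⟨i, rfl⟩ : ∃ i, h = 2 * n + i := ⟨h - 2 * n, by omega⟩
      have h2 : (2 * n + i) % 2 = i % 2 := by omega
      rw [hxQ, hpQ, h2]
      exact nzf_ps _ _ (hQ0 _)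
  · intro i hi
    have h1 : i % 2 = i := Nat.mod_eq_of_lt hi
    rw [hxQ, hpQ, h1]
    exact hQx i hi
  · intro ε h1
    apply hP () (fun h => ε h.val)
    rw [← h1]
    unfold Paux
    rw [Fintype.sum_prod_type]
    refine Finset.sum_congr rfl fun α _ => ?_
    rw [Finset.sum_mul]
    refine Finset.sum_congr rfl fun β _ => ?_
    have h2 : ∏ i : Fin 2, X0 i.val ^ (β i).val = ∏ i : Fin 2, xP (2 * n + i.val) ^ (β i).val := by
      refine Finset.prod_congr rfl fun i _ => ?_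
      have hi : i.val % 2 = i.val := Nat.mod_eq_of_lt i.isLt
      rw [hxQ, hi, (hQx i.val i.isLt).1]
    rw [h2]
    have h3 : ∀ h : Fin (2 * n),
        lawV (mapW Ω W) n e (fun _ => false) xP
          (fun h => if h < 2 * n then ((ε h : ℤ) : Ω) * pP h else pP h) h.val =
        law (mapW Ω W (h.val % 2)) (e (h.val / 2)) false (xc (P h).1) (xc (Q (h.val % 2)))
          (((ε h.val : ℤ) : Ω) * ps (P h).1 * ps (Q (h.val % 2))) := by
      intro h
      have h4 : ¬ (2 * n + h.val % 2 < 2 * n) := by omega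
      have h5 : h.val % 2 % 2 = h.val % 2 := by omega
      unfold lawV
      simp only [h.2, if_true, if_neg h4]
      rw [hxQ, hpQ, hxP, hpP, h5]
    simp only [h3, hxP]
    ring

end Pool.Agent.Helper12.SGM
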